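import Pool.Agent.Helper77.DI.Base

/-!
DI-FIS: the Fischer form on `MvPolynomial σ ℂ` (MP_b07a0a).
-/

namespace Pool.Agent.Helper77.DI

open MvPolynomial

theorem fis_eq_sum {σ : Type} (f g : MvPolynomial σ ℂ) (T : Finset (σ →₀ ℕ))
    (hT : f.support ⊆ T) :
    fis f g = ∑ m ∈ T, coeff m f * (starRingEnd ℂ) (coeff m g) *
      (m.prod fun _ e => (Nat.factorial e : ℂ)) := by
  unfold fis
  refine Finset.sum_subset hT fun m _ hm => ?_
  rw [notMem_support_iff.mp hm]
  simp

/-- DI-FIS (a). -/
theorem fis_add_left {σ : Type} (f g h : MvPolynomial σ ℂ) :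
    fis (f + g) h = fis f h + fis g h := by
  classical
  have h1 : f.support ⊆ f.support ∪ g.support := Finset.subset_union_left
  have h2 : g.support ⊆ f.support ∪ g.support := Finset.subset_union_right
  have h3 : (f + g).support ⊆ f.support ∪ g.support := support_add
  rw [fis_eq_sum _ _ _ h1, fis_eq_sum _ _ _ h2, fis_eq_sum _ _ _ h3, ← Finset.sum_add_distrib]
  refine Finset.sum_congr rfl fun m _ => ?_
  rw [coeff_add]
  ring

theorem fis_smul_left {σ : Type} (c : ℂ) (f h : MvPolynomial σ ℂ) :
    fis (c • f) h = c * fis f h := by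
  have h3 : (c • f).support ⊆ f.support := support_smul
  rw [fis_eq_sum _ _ _ h3, fis_eq_sum f h f.support (Finset.Subset.refl _), Finset.mul_sum]
  refine Finset.sum_congr rfl fun m _ => ?_
  rw [coeff_smul, smul_eq_mul]
  ring

theorem fis_zero_left {σ : Type} (h : MvPolynomial σ ℂ) : fis 0 h = 0 := by
  simp [fis]

theorem fis_sum_left {σ κ : Type} (s : Finset κ) (f : κ → MvPolynomial σ ℂ)
    (h : MvPolynomial σ ℂ) : fis (∑ i ∈ s, f i) h = ∑ i ∈ s, fis (f i) h := by
  classical
  induction s using Finset.induction_on with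
  | empty => simp [fis_zero_left]
  | insert a s ha ih => rw [Finset.sum_insert ha, Finset.sum_insert ha, fis_add_left, ih]

theorem fis_add_right {σ : Type} (f g h : MvPolynomial σ ℂ) :
    fis f (g + h) = fis f g + fis f h := by
  unfold fis
  rw [← Finset.sum_add_distrib]
  refine Finset.sum_congr rfl fun m _ => ?_
  rw [coeff_add, map_add]
  ring

theorem fis_smul_right {σ : Type} (c : ℂ) (f h : MvPolynomial σ ℂ) :
    fis f (c • h) = (starRingEnd ℂ) c * fis f h := by
  unfold fis
  rw [Finset.mul_sum]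
  refine Finset.sum_congr rfl fun m _ => ?_
  rw [coeff_smul, smul_eq_mul, map_mul]
  ring

theorem fis_zero_right {σ : Type} (h : MvPolynomial σ ℂ) : fis h 0 = 0 := by
  simp [fis]

theorem fis_sum_right {σ κ : Type} (s : Finset κ) (f : κ → MvPolynomial σ ℂ)
    (h : MvPolynomial σ ℂ) : fis h (∑ i ∈ s, f i) = ∑ i ∈ s, fis h (f i) := by
  classical
  induction s using Finset.induction_on with
  | empty => simp [fis_zero_right]
  | insert a s ha ih => rw [Finset.sum_insert ha, Finset.sum_insert ha, fis_add_right, ih]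

theorem fact_cast {σ : Type} (m : σ →₀ ℕ) :
    (m.prod fun _ e => (Nat.factorial e : ℂ)) =
      ((m.prod fun _ e => Nat.factorial e : ℕ) : ℂ) := by
  simp [Finsupp.prod]

theorem fact_pos {σ : Type} (m : σ →₀ ℕ) : 0 < (m.prod fun _ e => Nat.factorial e : ℕ) :=
  Finset.prod_pos fun _ _ => Nat.factorial_pos _

theorem fis_self {σ : Type} (f : MvPolynomial σ ℂ) (h : fis f f = 0) : f = 0 := by
  have h1 : fis f f = ((∑ m ∈ f.support, Complex.normSq (coeff m f) *
      ((m.prod fun _ e => Nat.factorial e : ℕ) : ℝ) : ℝ) : ℂ) := by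
    unfold fis
    rw [Complex.ofReal_sum]
    refine Finset.sum_congr rfl fun m _ => ?_
    rw [Complex.ofReal_mul, Complex.ofReal_natCast, Complex.mul_conj, fact_cast]
  rw [h1, Complex.ofReal_eq_zero, Finset.sum_eq_zero_iff_of_nonneg] at h
  · by_contra hne
    obtain ⟨m, hm⟩ := support_nonempty.mpr hne
    have h2 := h m hm
    have h3 : (((m.prod fun _ e => Nat.factorial e : ℕ) : ℝ)) ≠ 0 := by
      have := fact_pos m
      positivity
    rcases mul_eq_zero.mp h2 with h4 | h4
    · exact (mem_support_iff.mp hm) (Complex.normSq_eq_zero.mp h4)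
    · exact h3 h4
  · intro m _
    exact mul_nonneg (Complex.normSq_nonneg _) (Nat.cast_nonneg _)

theorem fis_monomial {σ : Type} (m : σ →₀ ℕ) (a : ℂ) (g : MvPolynomial σ ℂ) :
    fis (monomial m a) g = a * (starRingEnd ℂ) (coeff m g) *
      (m.prod fun _ e => (Nat.factorial e : ℂ)) := by
  classical
  rw [fis_eq_sum _ g {m} support_monomial_subset, Finset.sum_singleton, coeff_monomial, if_pos rfl]

theorem prod_fact_add_single {σ : Type} (m : σ →₀ ℕ) (s : σ) :
    ((m + Finsupp.single s 1).prod fun _ e => (Nat.factorial e : ℂ)) =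
      ((m s : ℂ) + 1) * (m.prod fun _ e => (Nat.factorial e : ℂ)) := by
  classical
  have hs : m.support ⊆ insert s m.support := Finset.subset_insert _ _
  have hs' : (m + Finsupp.single s 1).support ⊆ insert s m.support := by
    intro x hx
    rw [Finsupp.mem_support_iff, Finsupp.add_apply] at hx
    by_cases hxs : x = s
    · exact hxs ▸ Finset.mem_insert_self _ _
    · refine Finset.mem_insert_of_mem ?_
      rw [Finsupp.single_eq_of_ne hxs, add_zero] at hx
      exact Finsupp.mem_support_iff.mpr hx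
  rw [Finsupp.prod_of_support_subset _ hs _ (fun _ _ => by simp),
    Finsupp.prod_of_support_subset _ hs' _ (fun _ _ => by simp),
    ← Finset.mul_prod_erase _ _ (Finset.mem_insert_self s m.support),
    ← Finset.mul_prod_erase (insert s m.support) (fun x => (Nat.factorial (m x) : ℂ))
      (Finset.mem_insert_self s m.support)]
  have h1 : ((Nat.factorial ((m + Finsupp.single s 1 : σ →₀ ℕ) s) : ℕ) : ℂ) =
      ((m s : ℂ) + 1) * (Nat.factorial (m s) : ℂ) := by
    rw [Finsupp.add_apply, Finsupp.single_eq_same, Nat.factorial_succ]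
    push_cast
    ring
  have h2 : ∏ x ∈ (insert s m.support).erase s, ((Nat.factorial
      ((m + Finsupp.single s 1 : σ →₀ ℕ) x) : ℕ) : ℂ) = ∏ x ∈ (insert s m.support).erase s, (Nat.factorial (m x) : ℂ) := by
    refine Finset.prod_congr rfl fun x hx => ?_
    have hxs : x ≠ s := Finset.ne_of_mem_erase hx
    rw [Finsupp.add_apply, Finsupp.single_eq_of_ne hxs, add_zero]
  rw [h1, h2]
  ring

theorem fis_X_mul {σ : Type} (s : σ) (f g : MvPolynomial σ ℂ) :
    fis (X s * f) g = fis f (pderiv s g) := by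
  induction f using MvPolynomial.induction_on' with
  | monomial m a =>
    have h1 : (X s * monomial m a : MvPolynomial σ ℂ) = monomial (m + Finsupp.single s 1) a := by
      rw [X, monomial_mul, one_mul, add_comm]
    rw [h1, fis_monomial, fis_monomial, coeff_pderiv, prod_fact_add_single, map_mul]
    have h2 : (starRingEnd ℂ) ((m s : ℂ) + 1) = (m s : ℂ) + 1 := by
      rw [map_add, map_natCast, map_one]
    rw [h2]
    ring
  | add p q hp hq => rw [mul_add, fis_add_left, fis_add_left, hp, hq]

/-- The substitution given by a matrix. -/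
noncomputable def LB {σ τ : Type} [Fintype τ] (B : τ → σ → ℂ) :
    MvPolynomial σ ℂ →ₐ[ℂ] MvPolynomial τ ℂ :=
  aeval fun s => ∑ t, C (B t s) * X t

theorem LB_X {σ τ : Type} [Fintype τ] (B : τ → σ → ℂ) (s : σ) :
    LB B (X s) = ∑ t, C (B t s) * X t := by
  simp [LB]

theorem LB_C {σ τ : Type} [Fintype τ] (B : τ → σ → ℂ) (c : ℂ) :
    LB B (C c) = C c := by
  simp [LB, algebraMap_eq]

theorem constantCoeff_LB {σ τ : Type} [Fintype τ] (B : τ → σ → ℂ) (f : MvPolynomial σ ℂ) :
    coeff 0 (LB B f) = coeff 0 f := by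
  have h : ((constantCoeff : MvPolynomial τ ℂ →+* ℂ).comp
      ((LB B : MvPolynomial σ ℂ →ₐ[ℂ] MvPolynomial τ ℂ) : MvPolynomial σ ℂ →+* MvPolynomial τ ℂ)) =
      constantCoeff := by
    apply MvPolynomial.ringHom_ext
    · intro r
      simp
    · intro s
      simp [LB_X]
  have h2 := congrArg (fun φ => φ f) h
  simpa [constantCoeff_eq] using h2

theorem pderiv_LB {σ τ : Type} [Fintype τ] [Fintype σ] (B : τ → σ → ℂ) (t : τ)
    (g : MvPolynomial σ ℂ) :
    pderiv t (LB B g) = ∑ s, C (B t s) * LB B (pderiv s g) := by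
  classical
  induction g using MvPolynomial.induction_on with
  | C a => simp
  | add p q hp hq =>
    rw [map_add, map_add, hp, hq, ← Finset.sum_add_distrib]
    refine Finset.sum_congr rfl fun s _ => ?_
    rw [map_add, map_add, mul_add]
  | mul_X p s' hp =>
    have h1 : pderiv t (LB B (X s')) = C (B t s') := by
      rw [LB_X, map_sum, Finset.sum_eq_single t]
      · rw [pderiv_C_mul, pderiv_X_self, mul_one]
      · intro b _ hb
        rw [pderiv_C_mul, pderiv_X_of_ne hb, mul_zero]
      · intro h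
        exact absurd (Finset.mem_univ _) h
    rw [map_mul, pderiv_mul, hp, h1, Finset.sum_mul]
    have h2 : ∀ s, C (B t s) * LB B (pderiv s (p * X s')) =
        C (B t s) * LB B (pderiv s p) * LB B (X s') +
          (if s = s' then LB B p * C (B t s') else 0) := by
      intro s
      rw [pderiv_mul, map_add, map_mul, map_mul]
      by_cases hs : s = s'
      · subst hs
        rw [if_pos rfl, pderiv_X_self, map_one]
        ring
      · rw [if_neg hs, pderiv_X_of_ne (Ne.symm hs), map_zero]
        ring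
    rw [Finset.sum_congr rfl fun s _ => h2 s, Finset.sum_add_distrib, Finset.sum_ite_eq',
      if_pos (Finset.mem_univ _)]

theorem fis_LB {σ τ : Type} [Fintype σ] [Fintype τ] (B : τ → σ → ℂ) (f : MvPolynomial σ ℂ)
    (g : MvPolynomial τ ℂ) :
    fis (LB B f) g = fis f (LB (fun s t => (starRingEnd ℂ) (B t s)) g) := by
  induction f using MvPolynomial.induction_on generalizing g with
  | C a =>
    have h1 : (C a : MvPolynomial τ ℂ) = monomial 0 a := rfl
    have h2 : (C a : MvPolynomial σ ℂ) = monomial 0 a := rfl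
    rw [LB_C, h1, h2, fis_monomial, fis_monomial, constantCoeff_LB]
    simp
  | add p q hp hq => rw [map_add, fis_add_left, fis_add_left, hp, hq]
  | mul_X p s hp =>
    rw [map_mul, LB_X, Finset.mul_sum, fis_sum_left, mul_comm p (X s), fis_X_mul, pderiv_LB,
      fis_sum_right]
    refine Finset.sum_congr rfl fun t _ => ?_
    have h1 : LB B p * (C (B t s) * X t) = B t s • (X t * LB B p) := by
      rw [smul_eq_C_mul]
      ring
    rw [h1, fis_smul_left, fis_X_mul, hp, ← smul_eq_C_mul, fis_smul_right]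
    simp

theorem lmap_eq_LB {ι : Type} [Finite ι] {V V' : ι → Type} [Fintype (∀ i, V' i)]
    (A : ∀ i, V' i → V i → ℂ) :
    lmap A = LB (fun (β : ∀ i, V' i) (α : ∀ i, V i) => ∏ᶠ i, A i (β i) (α i)) := by
  unfold lmap LB
  congr 1
  funext α
  rw [finsum_eq_sum_of_fintype]

/-- DI-FIS (b). -/
theorem fis_lmap {ι : Type} [Finite ι] {V V' : ι → Type} [∀ i, Finite (V i)]
    [∀ i, Finite (V' i)] (A : ∀ i, V' i → V i → ℂ) (f : MvPolynomial (∀ i, V i) ℂ)
    (g : MvPolynomial (∀ i, V' i) ℂ) :
    fis (lmap A f) g = fis f (lmap (fun i c c' => (starRingEnd ℂ) (A i c' c)) g) := by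
  have : Fintype ι := Fintype.ofFinite ι
  have : Fintype (∀ i, V i) := Fintype.ofFinite _
  have : Fintype (∀ i, V' i) := Fintype.ofFinite _
  rw [lmap_eq_LB, lmap_eq_LB, fis_LB]
  congr 3
  funext α β
  rw [finprod_eq_prod_of_fintype, finprod_eq_prod_of_fintype, map_prod]

theorem fis_homog {σ : Type} (k : ℕ) (g h : MvPolynomial σ ℂ) (hg : g.IsHomogeneous k) :
    fis g h = fis g (homogeneousComponent k h) := by
  unfold fis
  refine Finset.sum_congr rfl fun m hm => ?_
  rw [coeff_homogeneousComponent]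
  have h1 : m.degree = k := by
    have := hg (mem_support_iff.mp hm)
    rw [Finsupp.degree_eq_weight_one]
    exact this
  rw [if_pos h1]

/-- DI-FIS (c). -/
theorem exists_perp {σ : Type} [Finite σ] (S S' : Submodule ℂ (MvPolynomial σ ℂ)) (hle : S ≤ S')
    (hS : ∀ f ∈ S, ∀ k, homogeneousComponent k f ∈ S) (k : ℕ) (f : MvPolynomial σ ℂ)
    (hf : f ∈ S') (hk : f.IsHomogeneous k) (hfS : f ∉ S) :
    ∃ g ∈ S', g.IsHomogeneous k ∧ g ≠ 0 ∧ ∀ h ∈ S, fis g h = 0 := by
  classical
  have hD : FiniteDimensional ℂ (homogeneousSubmodule σ ℂ k) :=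
    Module.Finite.iff_fg.mpr (homogeneousSubmodule_fg σ ℂ k)
  let U : Submodule ℂ (MvPolynomial σ ℂ) := S ⊓ homogeneousSubmodule σ ℂ k
  let U1 : Submodule ℂ (MvPolynomial σ ℂ) := U ⊔ Submodule.span ℂ {f}
  have hUD : U ≤ homogeneousSubmodule σ ℂ k := inf_le_right
  have hU1D : U1 ≤ homogeneousSubmodule σ ℂ k := by
    refine sup_le hUD ?_
    rw [Submodule.span_singleton_le_iff_mem]
    exact hk
  have hU1S : U1 ≤ S' := by
    refine sup_le (inf_le_left.trans hle) ?_
    rw [Submodule.span_singleton_le_iff_mem]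
    exact hf
  have : FiniteDimensional ℂ U := Submodule.finiteDimensional_of_le hUD
  have : FiniteDimensional ℂ U1 := Submodule.finiteDimensional_of_le hU1D
  have hlt : U < U1 := by
    refine lt_of_le_of_ne le_sup_left fun h => hfS ?_
    have : f ∈ U1 := Submodule.mem_sup_right (Submodule.mem_span_singleton_self f)
    rw [← h] at this
    exact this.1
  have hrk := Submodule.finrank_lt_finrank_of_lt hlt
  let b := Module.finBasis ℂ U
  let Φ : U1 →ₗ[ℂ] (Fin (Module.finrank ℂ U) → ℂ) :=
    { toFun := fun g i => fis (g : MvPolynomial σ ℂ) (b i : MvPolynomial σ ℂ)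
      map_add' := fun g g' => by
        funext i
        simp [fis_add_left]
      map_smul' := fun c g => by
        funext i
        simp [fis_smul_left] }
  have hker : LinearMap.ker Φ ≠ ⊥ := by
    apply LinearMap.ker_ne_bot_of_finrank_lt
    simpa using hrk
  obtain ⟨g, hg, hg0⟩ := Submodule.exists_mem_ne_zero_of_ne_bot hker
  have hgb : ∀ i, fis (g : MvPolynomial σ ℂ) (b i : MvPolynomial σ ℂ) = 0 := fun i =>
    congrFun (LinearMap.mem_ker.mp hg) i
  have hgk : (g : MvPolynomial σ ℂ).IsHomogeneous k := hU1D g.2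
  refine ⟨g, hU1S g.2, hgk, fun h => hg0 (Subtype.ext h), fun h hh => ?_⟩
  rw [fis_homog k _ _ hgk]
  have hmem : homogeneousComponent k h ∈ U :=
    ⟨hS h hh k, homogeneousComponent_isHomogeneous k h⟩
  have hrep := b.sum_repr ⟨homogeneousComponent k h, hmem⟩
  have hrep' := congrArg (fun u : U => (u : MvPolynomial σ ℂ)) hrep
  simp only [Submodule.coe_sum, Submodule.coe_smul] at hrep'
  rw [← hrep', fis_sum_right]
  refine Finset.sum_eq_zero fun i _ => ?_
  rw [fis_smul_right, hgb, mul_zero]

end Pool.Agent.Helper77.DI
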